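import Pool.Agent.E8helper36.CF.Stm2

/-!
# Project CF36, part CH2: the choice after a rotation
-/

set_option autoImplicit false

namespace Pool.Agent.E8helper91.CF

open Pool.Agent.E8helper36.CF

lemma sh_ge {n : ℕ} {x i : Fin (2 * n)} (h : (x : ℕ) ≤ i) :
    (sh n (2 * n - x) i : ℕ) = i - x := by
  have hx := x.2
  have hi := i.2
  change ((i : ℕ) + (2 * n - x)) % (2 * n) = i - x
  have e : (i : ℕ) + (2 * n - x) = (i - x) + 2 * n := by omega
  rw [e, Nat.add_mod_right, Nat.mod_eq_of_lt (by omega)]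

lemma sh_lt {n : ℕ} {x i : Fin (2 * n)} (h : (i : ℕ) < x) :
    (sh n (2 * n - x) i : ℕ) = i + (2 * n - x) := by
  have hx := x.2
  change ((i : ℕ) + (2 * n - x)) % (2 * n) = i + (2 * n - x)
  rw [Nat.mod_eq_of_lt (by omega)]

theorem t_CH2 : S_TOP → S_CH1 → S_CH2 := by
  intro _ hCH n W hn h3 hW M hM
  obtain ⟨x, hx, hxy⟩ := hCH n W hn h3 hW M hM
  have hx2 := x.2
  have hlow : ∀ j : Fin (2 * n), (j : ℕ) < x → (M.m j : ℕ) < x := fun j hj => hx j hj
  have hhigh : ∀ j : Fin (2 * n), (x : ℕ) ≤ j → (x : ℕ) ≤ M.m j := by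
    intro j hj
    by_contra hc
    have h1 := hlow (M.m j) (by omega)
    rw [M.inv] at h1
    omega
  refine ⟨2 * n - x, fun M' hM' => ?_⟩
  have kge : ∀ j : Fin (2 * n), (x : ℕ) ≤ j → ∀ j' : Fin (2 * n), (j' : ℕ) = j - x →
      (M'.m j' : ℕ) = M.m j - x := by
    intro j hj j' hj'
    have e : j' = sh n (2 * n - x) j := Fin.ext (by rw [sh_ge hj, hj'])
    rw [e, hM' j, sh_ge (hhigh j hj)]
  have klt : ∀ j : Fin (2 * n), (j : ℕ) < x → ∀ j' : Fin (2 * n), (j' : ℕ) = j + (2 * n - x) →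
      (M'.m j' : ℕ) = M.m j + (2 * n - x) := by
    intro j hj j' hj'
    have e : j' = sh n (2 * n - x) j := Fin.ext (by rw [sh_lt hj, hj'])
    rw [e, hM' j, sh_lt (hlow j hj)]
  constructor
  · intro i'
    have hi' := i'.2
    by_cases hc : (i' : ℕ) + x < 2 * n
    · have h1 := kge ⟨i' + x, hc⟩ (by simp) i' (by simp)
      have h2 := hM ⟨i' + x, hc⟩
      have h4 := hhigh ⟨i' + x, hc⟩ (by simp)
      simp only at h2
      omega
    · have hlt : (i' : ℕ) + x - 2 * n < 2 * n := by omega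
      have h1 := klt ⟨i' + x - 2 * n, hlt⟩ (by simp only; omega) i' (by simp only; omega)
      have h2 := hM ⟨i' + x - 2 * n, hlt⟩
      simp only at h2
      omega
  · intro z1 hz1 hz1n hz1m
    have hz2 := z1.2
    have hm2 := (M'.m z1).2
    by_cases hc : (z1 : ℕ) + x < 2 * n
    · obtain ⟨z, hz⟩ : ∃ z : Fin (2 * n), (z : ℕ) = z1 + x := ⟨⟨z1 + x, hc⟩, rfl⟩
      have h1 := kge z (by omega) z1 (by omega)
      have h4 := hhigh z (by omega)
      have hmz := (M.m z).2
      obtain ⟨y, hy⟩ : ∃ y : Fin (2 * n), (y : ℕ) = x + n - 1 := ⟨⟨x + n - 1, by omega⟩, rfl⟩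
      have hT : Top M z := by
        intro j hj
        have hj' : (j : ℕ) < z := hj
        change (M.m j : ℕ) < z
        by_cases hjx : (j : ℕ) < x
        · have := hlow j hjx
          omega
        · obtain ⟨j', hj'1⟩ : ∃ j' : Fin (2 * n), (j' : ℕ) = j - x := ⟨⟨j - x, by omega⟩, rfl⟩
          have h5 := kge j (by omega) j' hj'1
          have h6 : (M'.m j' : ℕ) < z1 := hz1 j' (by change (j' : ℕ) < z1; omega)
          have h7 := hhigh j (by omega)
          omega
      have h8 := hxy y z (Or.inl (by omega)) hT (by change (z : ℕ) < y; omega)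
        (by change (y : ℕ) < M.m z; omega)
      omega
    · obtain ⟨z, hz⟩ : ∃ z : Fin (2 * n), (z : ℕ) = z1 + x - 2 * n :=
        ⟨⟨z1 + x - 2 * n, by omega⟩, rfl⟩
      have h1 := klt z (by omega) z1 (by omega)
      have h4 := hlow z (by omega)
      obtain ⟨y, hy⟩ : ∃ y : Fin (2 * n), (y : ℕ) = x - n - 1 := ⟨⟨x - n - 1, by omega⟩, rfl⟩
      have hT : Top M z := by
        intro j hj
        have hj' : (j : ℕ) < z := hj
        change (M.m j : ℕ) < z
        obtain ⟨j', hj'1⟩ : ∃ j' : Fin (2 * n), (j' : ℕ) = j + (2 * n - x) :=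
          ⟨⟨j + (2 * n - x), by omega⟩, rfl⟩
        have h5 := klt j (by omega) j' hj'1
        have h6 : (M'.m j' : ℕ) < z1 := hz1 j' (by change (j' : ℕ) < z1; omega)
        omega
      have h8 := hxy y z (Or.inr (by omega)) hT (by change (z : ℕ) < y; omega)
        (by change (y : ℕ) < M.m z; omega)
      omega

end Pool.Agent.E8helper91.CF
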